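import Mathlib

/-!
# The part of a number composed of the primes of `m` (leaf B)
-/

set_option autoImplicit false

namespace Pool.Agent.Helper98.EM

open Finset

/-- The part of `t` composed of the primes dividing `m`. -/
def mp (m t : ℕ) : ℕ := ∏ p ∈ m.primeFactors, p ^ t.factorization p

theorem mp_ne_zero (m t : ℕ) : mp m t ≠ 0 :=
  Finset.prod_ne_zero_iff.2 fun _ hp => pow_ne_zero _ (Nat.prime_of_mem_primeFactors hp).ne_zero

theorem mp_pos (m t : ℕ) : 0 < mp m t := Nat.pos_of_ne_zero (mp_ne_zero m t)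

theorem fact_mp (m t p : ℕ) :
    (mp m t).factorization p = if p ∈ m.primeFactors then t.factorization p else 0 := by
  unfold mp
  rw [Nat.factorization_prod
    (fun p hp => pow_ne_zero _ (Nat.prime_of_mem_primeFactors hp).ne_zero),
    Finset.sum_congr rfl (fun x hx => (Nat.prime_of_mem_primeFactors hx).factorization_pow),
    Finsupp.finsetSum_apply]
  simp only [Finsupp.single_apply]
  rw [Finset.sum_ite_eq']

theorem mp_dvd (m t : ℕ) : mp m t ∣ t := by
  rcases Nat.eq_zero_or_pos t with rfl | ht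
  · exact dvd_zero _
  · refine (Nat.factorization_le_iff_dvd (mp_ne_zero m t) ht.ne').1 fun p => ?_
    rw [fact_mp]
    split_ifs
    · exact le_rfl
    · exact Nat.zero_le _

/-- (B1) -/
theorem mul_mp (m q : ℕ) : mp m q * (q / mp m q) = q := Nat.mul_div_cancel' (mp_dvd m q)

/-- (B1) -/
theorem div_coprime (m q : ℕ) (hm : m ≠ 0) (hq : q ≠ 0) : (q / mp m q).Coprime m := by
  have h0 : q / mp m q ≠ 0 := by
    intro h
    have := mul_mp m q
    rw [h, mul_zero] at this
    exact hq this.symm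
  rw [Nat.coprime_iff_gcd_eq_one]
  by_contra hne
  obtain ⟨p, hp, hd⟩ := Nat.exists_prime_and_dvd hne
  have h1 : p ∣ q / mp m q := hd.trans (Nat.gcd_dvd_left _ _)
  have h2 : p ∣ m := hd.trans (Nat.gcd_dvd_right _ _)
  have h3 : (q / mp m q).factorization p = 0 := by
    rw [Nat.factorization_div (mp_dvd m q), Finsupp.tsub_apply, fact_mp,
      if_pos (Nat.mem_primeFactors.2 ⟨hp, h2, hm⟩), Nat.sub_self]
  have h4 := hp.factorization_pos_of_dvd h0 h1
  omega

/-- The primes of the `m`-part divide `m`. -/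
theorem coprime_mp {f m : ℕ} (h : f.Coprime m) (t : ℕ) : f.Coprime (mp m t) :=
  Nat.Coprime.prod_right fun _ hp =>
    (Nat.Coprime.coprime_dvd_right (Nat.dvd_of_mem_primeFactors hp) h).pow_right _

theorem mp_dvd_mp {m s t : ℕ} (ht : t ≠ 0) (hst : mp m s ∣ t) : mp m s ∣ mp m t := by
  refine (Nat.factorization_le_iff_dvd (mp_ne_zero m s) (mp_ne_zero m t)).1 fun p => ?_
  have h1 := (Nat.factorization_le_iff_dvd (mp_ne_zero m s) ht).2 hst p
  rw [fact_mp] at h1 ⊢
  rw [fact_mp]
  split_ifs with h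
  · rw [if_pos h] at h1
    exact h1
  · exact le_rfl

/-- (B2) -/
theorem dvd_mul_mp {m f t q : ℕ} (hm : m ≠ 0) (hf : f.Coprime m) (ht : t ≠ 0) (hq : q ≠ 0) :
    q ∣ f * mp m t ↔ (q / mp m q) ∣ f ∧ mp m q ∣ t := by
  constructor
  · intro h
    have h1 : (q / mp m q) ∣ f * mp m t := (Nat.div_dvd_of_dvd (mp_dvd m q)).trans h
    have h2 : (q / mp m q).Coprime (mp m t) := coprime_mp (div_coprime m q hm hq) t
    have h3 : mp m q ∣ f * mp m t := (mp_dvd m q).trans h
    have h4 : (mp m q).Coprime f := (coprime_mp hf q).symm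
    exact ⟨h2.dvd_of_dvd_mul_right h1, (h4.dvd_of_dvd_mul_left h3).trans (mp_dvd m t)⟩
  · rintro ⟨h1, h2⟩
    have h3 := mp_dvd_mp ht h2
    have h4 := mul_dvd_mul h3 h1
    rw [mul_mp, mul_comm] at h4
    exact h4

/-- (B3) -/
theorem card_mult (T g : ℕ) : ((Icc 1 T).filter (fun t => g ∣ t)).card = T / g := by
  have h : Icc 1 T = Ioc 0 T := by
    ext x
    rw [mem_Icc, mem_Ioc]
    omega
  rw [h]
  exact Nat.Ioc_filter_dvd_card_eq_div T g

/-- (B4) -/
theorem mp_dvd_factorial {m q Y : ℕ} (hq : q ≠ 0) (hY : q ≤ Y) : mp m q ∣ Y.factorial :=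
  (mp_dvd m q).trans (Nat.dvd_factorial (Nat.pos_of_ne_zero hq) hY)

/-- (B5) -/
theorem mp_eq_one {m t : ℕ} (hm : m ≠ 0) (ht : t ≠ 0) : mp m t = 1 ↔ t.Coprime m := by
  constructor
  · intro h
    have h1 := div_coprime m t hm ht
    rwa [h, Nat.div_one] at h1
  · intro h
    refine Finset.prod_eq_one fun p hp => ?_
    have h1 : ¬ p ∣ t := fun hd => by
      have h2 : p ∣ Nat.gcd t m := Nat.dvd_gcd hd (Nat.dvd_of_mem_primeFactors hp)
      rw [Nat.Coprime] at h
      rw [h] at h2
      exact (Nat.prime_of_mem_primeFactors hp).one_lt.ne' (Nat.dvd_one.1 h2)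
    rw [Nat.factorization_eq_zero_of_not_dvd h1, pow_zero]

/-- (B6) -/
theorem card_coprime (m c : ℕ) :
    ((Icc 1 (m * c)).filter (fun t => t.Coprime m)).card = c * Nat.totient m := by
  induction c with
  | zero => simp
  | succ c ih =>
    have h1 : Icc 1 (m * (c + 1)) = Icc 1 (m * c) ∪ Ico (m * c + 1) (m * c + 1 + m) := by
      ext x
      rw [mem_union, mem_Icc, mem_Icc, mem_Ico, Nat.mul_succ]
      omega
    have h2 : Disjoint (Icc 1 (m * c)) (Ico (m * c + 1) (m * c + 1 + m)) := by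
      rw [Finset.disjoint_left]
      intro x hx hx'
      rw [mem_Icc] at hx
      rw [mem_Ico] at hx'
      omega
    rw [h1, Finset.filter_union, Finset.card_union_of_disjoint (Finset.disjoint_filter_filter h2),
      ih]
    have h3 := Nat.filter_coprime_Ico_eq_totient m (m * c + 1)
    have h4 : (Ico (m * c + 1) (m * c + 1 + m)).filter (fun t => t.Coprime m) =
        (Ico (m * c + 1) (m * c + 1 + m)).filter (fun t => m.Coprime t) :=
      Finset.filter_congr fun t _ => Nat.coprime_comm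
    rw [h4, h3]
    ring

end Pool.Agent.Helper98.EM
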